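import Mathlib

/-! Great circle estimates and unit quaternions. -/

set_option autoImplicit false

namespace Pool.Agent.H822Z.Hom

open Set Quaternion
open scoped RealInnerProductSpace

/-- The angle between the ends of a curve on the unit sphere is at most its length. -/
theorem arccos_le_integral {V : Type} [NormedAddCommGroup V] [InnerProductSpace ℝ V]
    (x x' : ℝ → V) (hx : ∀ t, HasDerivAt x (x' t) t) (hc : Continuous x')
    (hn : ∀ t, ‖x t‖ = 1) :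
    Real.arccos ⟪x 0, x 1⟫ ≤ ∫ t in (0 : ℝ)..1, ‖x' t‖ := by
  have horth : ∀ t, ⟪x t, x' t⟫ = 0 := by
    intro t
    have h1 : HasDerivAt (fun s => ⟪x s, x s⟫) (⟪x t, x' t⟫ + ⟪x' t, x t⟫) t :=
      (hx t).inner ℝ (hx t)
    have h2 : (fun s => ⟪x s, x s⟫) = fun _ => (1 : ℝ) := by
      funext s; rw [real_inner_self_eq_norm_sq, hn]; norm_num
    rw [h2] at h1
    have h3 := h1.unique (hasDerivAt_const t (1 : ℝ))
    rw [real_inner_comm (x t) (x' t)] at h3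
    linarith
  have key : ∀ r : ℝ, 0 < r → r < 1 →
      Real.arccos (r * ⟪x 0, x 1⟫) - Real.arccos r ≤ ∫ t in (0 : ℝ)..1, ‖x' t‖ := by
    intro r hr0 hr1
    have hh : ∀ t, |⟪x 0, x t⟫| ≤ 1 := fun t => by
      have := abs_real_inner_le_norm (x 0) (x t)
      rwa [hn, hn, mul_one] at this
    have hlt : ∀ t, |r * ⟪x 0, x t⟫| < 1 := fun t => by
      rw [abs_mul, abs_of_pos hr0]
      nlinarith [hh t, abs_nonneg ⟪x 0, x t⟫]
    have hd : ∀ t, HasDerivAt (fun s => Real.arccos (r * ⟪x 0, x s⟫))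
        (-(1 / √(1 - (r * ⟪x 0, x t⟫) ^ 2)) * (r * ⟪x 0, x' t⟫)) t := by
      intro t
      have h1 : HasDerivAt (fun s => r * ⟪x 0, x s⟫) (r * ⟪x 0, x' t⟫) t := by
        have := ((hasDerivAt_const t (x 0)).inner ℝ (hx t)).const_mul r
        simpa using this
      have h2 := abs_lt.1 (hlt t)
      exact HasDerivAt.comp (h₂ := Real.arccos) (h := fun s => r * ⟪x 0, x s⟫) t
        (Real.hasDerivAt_arccos h2.1.ne' h2.2.ne) h1
    have hb : ∀ t, -(1 / √(1 - (r * ⟪x 0, x t⟫) ^ 2)) * (r * ⟪x 0, x' t⟫) ≤ ‖x' t‖ := by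
      intro t
      set h := ⟪x 0, x t⟫ with hh'
      have hpos : 0 < 1 - (r * h) ^ 2 := by
        have := abs_lt.1 (hlt t)
        nlinarith
      have hs : 0 < √(1 - (r * h) ^ 2) := Real.sqrt_pos.2 hpos
      have e1 : ⟪x 0, x' t⟫ = ⟪x 0 - h • x t, x' t⟫ := by
        rw [inner_sub_left, inner_smul_left, horth]; simp
      have e2 : ‖x 0 - h • x t‖ ^ 2 = 1 - h ^ 2 := by
        rw [norm_sub_sq_real, hn, norm_smul, hn, inner_smul_right, ← hh', Real.norm_eq_abs,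
          mul_one, sq_abs]
        ring
      have e3 : ‖x 0 - h • x t‖ ≤ √(1 - (r * h) ^ 2) := by
        apply Real.le_sqrt_of_sq_le
        rw [e2]
        have : r ^ 2 * h ^ 2 ≤ h ^ 2 := by
          have : r ^ 2 ≤ 1 := by nlinarith
          nlinarith [sq_nonneg h]
        nlinarith
      have e4 : |⟪x 0, x' t⟫| ≤ √(1 - (r * h) ^ 2) * ‖x' t‖ := by
        rw [e1]
        exact (abs_real_inner_le_norm _ _).trans (mul_le_mul_of_nonneg_right e3 (norm_nonneg _))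
      have e5 : -(r * ⟪x 0, x' t⟫) ≤ √(1 - (r * h) ^ 2) * ‖x' t‖ := by
        have := neg_abs_le ⟪x 0, x' t⟫
        have := abs_nonneg ⟪x 0, x' t⟫
        nlinarith
      have e6 : -(1 / √(1 - (r * h) ^ 2)) * (r * ⟪x 0, x' t⟫) =
          -(r * ⟪x 0, x' t⟫) / √(1 - (r * h) ^ 2) := by ring
      rw [e6, div_le_iff₀ hs]
      linarith
    have := intervalIntegral.sub_le_integral_of_hasDeriv_right_of_le (a := 0) (b := 1)
      (g := fun s => Real.arccos (r * ⟪x 0, x s⟫)) (φ := fun t => ‖x' t‖) zero_le_one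
      (fun t _ => (hd t).continuousAt.continuousWithinAt)
      (fun t _ => (hd t).hasDerivWithinAt) (hc.norm.integrableOn_Icc) (fun t _ => hb t)
    have e0 : ⟪x 0, x 0⟫ = 1 := by rw [real_inner_self_eq_norm_sq, hn]; norm_num
    simp only [e0, mul_one] at this
    exact this
  have hcont : ContinuousAt (fun r : ℝ => Real.arccos (r * ⟪x 0, x 1⟫) - Real.arccos r) 1 := by
    apply Continuous.continuousAt
    exact (Real.continuous_arccos.comp (continuous_id.mul continuous_const)).sub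
      Real.continuous_arccos
  have ht := hcont.tendsto.mono_left (nhdsWithin_le_nhds (s := Iio (1 : ℝ)))
  have hle := le_of_tendsto ht (by
    filter_upwards [Ioo_mem_nhdsLT (show (0 : ℝ) < 1 by norm_num)] with r hr
    exact key r hr.1 hr.2)
  simpa using hle

/-- the quaternion units -/
def qi : ℍ[ℝ] := ⟨0, 1, 0, 0⟩
/-- the second unit -/
def qj : ℍ[ℝ] := ⟨0, 0, 1, 0⟩

/-- one parameter subgroups -/
noncomputable def ex (n : ℍ[ℝ]) (s : ℝ) : ℍ[ℝ] := Real.cos s • (1 : ℍ[ℝ]) + Real.sin s • n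

theorem inner_eq (a b : ℍ[ℝ]) :
    ⟪a, b⟫ = a.re * b.re + a.imI * b.imI + a.imJ * b.imJ + a.imK * b.imK := by
  rw [Quaternion.inner_def]
  simp

theorem norm_eq_one_iff (a : ℍ[ℝ]) :
    ‖a‖ = 1 ↔ a.re ^ 2 + a.imI ^ 2 + a.imJ ^ 2 + a.imK ^ 2 = 1 := by
  have h : ‖a‖ ^ 2 = a.re ^ 2 + a.imI ^ 2 + a.imJ ^ 2 + a.imK ^ 2 := by
    rw [← real_inner_self_eq_norm_sq, inner_eq]; ring
  constructor
  · intro h1; rw [← h, h1]; norm_num
  · intro h1
    rw [h1] at h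
    have := norm_nonneg a
    nlinarith

theorem norm_qi : ‖qi‖ = 1 := by rw [norm_eq_one_iff]; simp [qi]
theorem norm_qj : ‖qj‖ = 1 := by rw [norm_eq_one_iff]; simp [qj]

theorem norm_ex {n : ℍ[ℝ]} (h0 : n.re = 0) (h1 : ‖n‖ = 1) (s : ℝ) : ‖ex n s‖ = 1 := by
  rw [norm_eq_one_iff] at h1 ⊢
  simp only [ex, re_add, imI_add, imJ_add, imK_add, re_smul, imI_smul, imJ_smul, imK_smul, re_one,
    imI_one, imJ_one, imK_one, smul_eq_mul, h0] at h1 ⊢
  have := Real.cos_sq_add_sin_sq s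
  nlinarith

theorem mul_self_im {n : ℍ[ℝ]} (h0 : n.re = 0) (h1 : ‖n‖ = 1) : n * n = -1 := by
  rw [norm_eq_one_iff] at h1
  ext <;> simp [h0] <;> nlinarith

theorem hasDerivAt_ex {n : ℍ[ℝ]} (h0 : n.re = 0) (h1 : ‖n‖ = 1) (s : ℝ) :
    HasDerivAt (ex n) (ex n s * n) s := by
  have h := ((Real.hasDerivAt_cos s).smul_const (1 : ℍ[ℝ])).add
    ((Real.hasDerivAt_sin s).smul_const n)
  have e : ex n s * n = -Real.sin s • (1 : ℍ[ℝ]) + Real.cos s • n := by
    rw [ex, add_mul, smul_mul_assoc, smul_mul_assoc, one_mul, mul_self_im h0 h1]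
    simp [add_comm]
  rw [e]
  exact h

theorem contDiff_ex (n : ℍ[ℝ]) : ContDiff ℝ 1 (ex n) := by
  unfold ex
  fun_prop

theorem ex_add {n : ℍ[ℝ]} (h0 : n.re = 0) (h1 : ‖n‖ = 1) (s t : ℝ) :
    ex n (s + t) = ex n s * ex n t := by
  simp only [ex, add_mul, mul_add, smul_mul_assoc, mul_smul_comm, one_mul, mul_one,
    mul_self_im h0 h1, Real.cos_add, Real.sin_add]
  module

theorem ex_zero (n : ℍ[ℝ]) : ex n 0 = 1 := by simp [ex]

theorem ex_comm (n : ℍ[ℝ]) (s : ℝ) : ex n s * n = n * ex n s := by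
  simp only [ex, add_mul, mul_add, smul_mul_assoc, mul_smul_comm, one_mul, mul_one]

theorem inner_mul_left {y : ℍ[ℝ]} (hy : ‖y‖ = 1) (a b : ℍ[ℝ]) : ⟪y * a, y * b⟫ = ⟪a, b⟫ := by
  rw [norm_eq_one_iff] at hy
  simp only [inner_eq, re_mul, imI_mul, imJ_mul, imK_mul]
  linear_combination (a.re * b.re + a.imI * b.imI + a.imJ * b.imJ + a.imK * b.imK) * hy

theorem inner_mul_right {y : ℍ[ℝ]} (hy : ‖y‖ = 1) (a b : ℍ[ℝ]) : ⟪a * y, b * y⟫ = ⟪a, b⟫ := by
  rw [norm_eq_one_iff] at hy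
  simp only [inner_eq, re_mul, imI_mul, imJ_mul, imK_mul]
  linear_combination (a.re * b.re + a.imI * b.imI + a.imJ * b.imJ + a.imK * b.imK) * hy

theorem mul_star_self {y : ℍ[ℝ]} (hy : ‖y‖ = 1) : y * star y = 1 := by
  rw [norm_eq_one_iff] at hy
  ext <;> simp <;> nlinarith

theorem star_mul_self {y : ℍ[ℝ]} (hy : ‖y‖ = 1) : star y * y = 1 := by
  rw [norm_eq_one_iff] at hy
  ext <;> simp <;> nlinarith

/-- polar form of a unit quaternion -/
theorem exists_polar {w : ℍ[ℝ]} (hw : ‖w‖ = 1) :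
    ∃ n : ℍ[ℝ], n.re = 0 ∧ ‖n‖ = 1 ∧ ex n (Real.arccos w.re) = w := by
  have hw' := (norm_eq_one_iff w).1 hw
  have h1 : -1 ≤ w.re := by nlinarith [sq_nonneg w.imI, sq_nonneg w.imJ, sq_nonneg w.imK]
  have h2 : w.re ≤ 1 := by nlinarith [sq_nonneg w.imI, sq_nonneg w.imJ, sq_nonneg w.imK]
  have hs : 0 ≤ 1 - w.re ^ 2 := by nlinarith
  by_cases h : √(1 - w.re ^ 2) = 0
  · have h3 : 1 - w.re ^ 2 = 0 := by
      have := Real.sq_sqrt hs
      rw [h] at this; linarith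
    refine ⟨qi, rfl, norm_qi, ?_⟩
    rw [ex, Real.cos_arccos h1 h2, Real.sin_arccos, h]
    have a1 : w.imI = 0 := by nlinarith [sq_nonneg w.imI, sq_nonneg w.imJ, sq_nonneg w.imK]
    have a2 : w.imJ = 0 := by nlinarith [sq_nonneg w.imI, sq_nonneg w.imJ, sq_nonneg w.imK]
    have a3 : w.imK = 0 := by nlinarith [sq_nonneg w.imI, sq_nonneg w.imJ, sq_nonneg w.imK]
    ext <;> simp [a1, a2, a3]
  · set s := √(1 - w.re ^ 2) with hsdef
    have hss : s ^ 2 = 1 - w.re ^ 2 := Real.sq_sqrt hs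
    refine ⟨⟨0, w.imI / s, w.imJ / s, w.imK / s⟩, rfl, ?_, ?_⟩
    · rw [norm_eq_one_iff]
      simp only
      field_simp
      linarith
    · rw [ex, Real.cos_arccos h1 h2, Real.sin_arccos, ← hsdef]
      ext <;> simp <;> field_simp

/-- a unit imaginary quaternion anticommuting with `i` and conjugating `u` to its conjugate -/
theorem exists_flip (u : ℍ[ℝ]) :
    ∃ a : ℍ[ℝ], ‖a‖ = 1 ∧ qi * a = -(a * qi) ∧ a * u = star u * a := by
  by_cases h : u.imJ ^ 2 + u.imK ^ 2 = 0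
  · have a2 : u.imJ = 0 := by nlinarith [sq_nonneg u.imJ, sq_nonneg u.imK]
    have a3 : u.imK = 0 := by nlinarith [sq_nonneg u.imJ, sq_nonneg u.imK]
    refine ⟨qj, norm_qj, ?_, ?_⟩
    · ext <;> simp [qi, qj]
    · ext <;> simp [qj, a2, a3]
  · have hp : 0 < u.imJ ^ 2 + u.imK ^ 2 :=
      lt_of_le_of_ne (by positivity) (Ne.symm h)
    set s := √(u.imJ ^ 2 + u.imK ^ 2) with hsdef
    have hs0 : 0 < s := Real.sqrt_pos.2 hp
    have hss : s ^ 2 = u.imJ ^ 2 + u.imK ^ 2 := Real.sq_sqrt hp.le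
    refine ⟨⟨0, 0, -u.imK / s, u.imJ / s⟩, ?_, ?_, ?_⟩
    · rw [norm_eq_one_iff]
      simp only
      field_simp
      linarith
    · ext <;> simp [qi]
    · ext <;> simp <;> field_simp <;> ring

end Pool.Agent.H822Z.Hom
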