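import Mathlib

/-! Riemannian metrics, isometries, weak symmetry and quotients by groups of isometries.
A field of forms is a function `g : M → E → E → ℝ`; the tangent space `TangentSpace I x` is by
definition the model vector space `E`, and `g x` is read on it. -/

set_option autoImplicit false

namespace Pool.Agent.H822Z.Hom

open scoped Manifold ContDiff ENNReal

variable {E H : Type} [NormedAddCommGroup E] [NormedSpace ℝ E] [TopologicalSpace H]

/-- A positive definite symmetric bilinear form. -/
def IsInner (b : E → E → ℝ) : Prop :=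
  (∀ (a : ℝ) (u v w : E), b (a • u + v) w = a * b u w + b v w) ∧ (∀ v w : E, b v w = b w v) ∧
    ∀ v : E, v ≠ 0 → 0 < b v v

variable (I : ModelWithCorners ℝ E H) {M : Type} [TopologicalSpace M] [ChartedSpace H M]

/-- A smooth Riemannian metric: a field of inner products on the tangent spaces whose quadratic
form is a smooth function on the tangent bundle. -/
def IsRiemannian [IsManifold I ∞ M] (g : M → E → E → ℝ) : Prop :=
  (∀ x : M, IsInner (g x)) ∧
    ContMDiff I.tangent 𝓘(ℝ, ℝ) ∞ fun v : TangentBundle I M => g v.proj v.snd v.snd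

/-- The norm of tangent vectors. -/
@[reducible] noncomputable def tnorm (g : M → E → E → ℝ) (x : M) : ENorm (TangentSpace I x) :=
  ⟨fun v => ENNReal.ofReal √(g x v v)⟩

/-- The Riemannian distance: the infimum of the lengths of `C^1` paths. -/
noncomputable def rdist (g : M → E → E → ℝ) (x y : M) : ℝ≥0∞ :=
  letI := tnorm I g
  Manifold.riemannianEDist I x y

/-- The differential of a self map at a point. -/
noncomputable def dif (φ : M → M) (x : M) (v : E) : E := mfderiv I I φ x v

/-- Isometries: diffeomorphisms whose differential preserves the metric. -/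
def IsIsom (g : M → E → E → ℝ) (φ : Equiv.Perm M) : Prop :=
  ContMDiff I I ∞ φ ∧ ContMDiff I I ∞ φ.symm ∧
    ∀ (x : M) (v w : E), g (φ x) (dif I φ x v) (dif I φ x w) = g x v w

/-- Any two points are interchanged by an isometry. -/
def WeaklySymmetric (g : M → E → E → ℝ) : Prop :=
  ∀ x y : M, ∃ φ : Equiv.Perm M, IsIsom I g φ ∧ φ x = y ∧ φ y = x

/-- The orbit space of a group of permutations. -/
abbrev Orb (Γ : Subgroup (Equiv.Perm M)) : Type := MulAction.orbitRel.Quotient Γ M

/-- The orbit of a point. -/
abbrev orb (Γ : Subgroup (Equiv.Perm M)) (x : M) : Orb Γ := Quotient.mk (MulAction.orbitRel Γ M) x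

/-- The distance of the induced metric on the orbit space of a group of isometries. -/
noncomputable def qdist (g : M → E → E → ℝ) (Γ : Subgroup (Equiv.Perm M)) (p q : Orb Γ) : ℝ≥0∞ :=
  ⨅ (x : M) (y : M) (_ : orb Γ x = p) (_ : orb Γ y = q), rdist I g x y

/-- The distance preserving bijections of the orbit space act transitively. -/
def QuotHomogeneous (g : M → E → E → ℝ) (Γ : Subgroup (Equiv.Perm M)) : Prop :=
  ∀ p q : Orb Γ, ∃ φ : Orb Γ ≃ Orb Γ,
    (∀ a b, qdist I g Γ (φ a) (φ b) = qdist I g Γ a b) ∧ φ p = q

end Pool.Agent.H822Z.Hom
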