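import Pool.Agent.H822Z.Hom.Mfd

/-! Upper and lower bounds for the Riemannian distance. -/

set_option autoImplicit false
set_option linter.style.haveILetI false

namespace Pool.Agent.H822Z.Hom

open Set Quaternion Module MeasureTheory
open scoped RealInnerProductSpace Manifold ContDiff ENNReal

theorem enormSMul (p : MM) :
    letI := tnorm II GG
    ENormSMulClass ℝ (TangentSpace II p) := by
  letI := tnorm II GG
  constructor
  intro r v
  change ENNReal.ofReal √(gg p (r • v) (r • v)) = ‖r‖ₑ * ENNReal.ofReal √(gg p v v)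
  rw [map_smul, map_smul, LinearMap.smul_apply, smul_eq_mul, smul_eq_mul, ← mul_assoc,
    Real.sqrt_mul (mul_self_nonneg r), Real.sqrt_mul_self_eq_abs, ENNReal.ofReal_mul (abs_nonneg r),
    ← ofReal_norm, Real.norm_eq_abs]

theorem length_eq {γ : ℝ → MM} (hγ : ContMDiff 𝓘(ℝ, ℝ) II 1 γ) :
    letI := tnorm II GG
    Manifold.pathELength II γ 0 1 = ∫⁻ t in Icc (0 : ℝ) 1, ENNReal.ofReal
      √(‖tw (c1 (γ t)) (c2 (γ t)) (deriv (c1 ∘ γ) t) (deriv (c2 ∘ γ) t)‖ ^ 2 +
        ‖deriv (c2 ∘ γ) t‖ ^ 2) := by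
  letI := tnorm II GG
  rw [Manifold.pathELength_eq_lintegral_mfderiv_Icc]
  refine lintegral_congr fun t => ?_
  have hd : MDifferentiableAt 𝓘(ℝ, ℝ) II γ t := (hγ t).mdifferentiableAt one_ne_zero
  change ENNReal.ofReal √(gg _ _ _) = _
  rw [gg_self, d1_comp hd, d2_comp hd, mfderiv_eq_fderiv, mfderiv_eq_fderiv]
  rfl

theorem re_qi : qi.re = 0 := rfl

/-- lower bound for the length of a curve -/
theorem curve_lower (y : ℝ → ℍ[ℝ]) (z : ℝ → ℂ) (hy : ContDiff ℝ 1 y) (hz : ContDiff ℝ 1 z)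
    (ny : ∀ t, ‖y t‖ = 1) (nz : ∀ t, ‖z t‖ = 1) :
    ∃ θ : ℝ, z 1 = z 0 * Complex.exp (θ * Complex.I) ∧ ∀ A B : ℝ, 0 ≤ A → 0 ≤ B →
      A ^ 2 + B ^ 2 ≤ 1 →
      ENNReal.ofReal (A * Real.arccos ⟪y 0, ex qi (θ / 4) * y 1⟫ + B * |θ|) ≤
        ∫⁻ t in Icc (0 : ℝ) 1, ENNReal.ofReal
          √(‖tw (y t) (z t) (deriv y t) (deriv z t)‖ ^ 2 + ‖deriv z t‖ ^ 2) := by
  have dy : ∀ t, HasDerivAt y (deriv y t) t := fun t =>
    (hy.differentiable one_ne_zero t).hasDerivAt
  have dz : ∀ t, HasDerivAt z (deriv z t) t := fun t =>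
    (hz.differentiable one_ne_zero t).hasDerivAt
  have cy' : Continuous (deriv y) := hy.continuous_deriv le_rfl
  have cz' : Continuous (deriv z) := hz.continuous_deriv le_rfl
  have cy := hy.continuous
  have cz := hz.continuous
  let om : ℝ → ℝ := fun t => ((starRingEnd ℂ) (z t) * deriv z t).im
  have com : Continuous om :=
    Complex.continuous_im.comp ((Complex.continuous_conj.comp cz).mul cz')
  let θ : ℝ → ℝ := fun t => ∫ s in (0 : ℝ)..t, om s
  have dθ : ∀ t, HasDerivAt θ (om t) t := fun t => (com.integral_hasStrictDerivAt 0 t).hasDerivAt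
  have θ0 : θ 0 = 0 := by simp [θ]
  have cθ : Continuous θ := continuous_iff_continuousAt.2 fun t => (dθ t).continuousAt
  have horth : ∀ t, ((starRingEnd ℂ) (z t) * deriv z t).re = 0 := by
    intro t
    have h1 : HasDerivAt (fun s => ⟪z s, z s⟫) (⟪z t, deriv z t⟫ + ⟪deriv z t, z t⟫) t :=
      (dz t).inner ℝ (dz t)
    have h2 : (fun s => ⟪z s, z s⟫) = fun _ => (1 : ℝ) := by
      funext s; rw [real_inner_self_eq_norm_sq, nz]; norm_num
    rw [h2] at h1
    have h3 := h1.unique (hasDerivAt_const t (1 : ℝ))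
    rw [real_inner_comm (z t) (deriv z t), Complex.inner] at h3
    rw [mul_comm]
    linarith
  have hz' : ∀ t, deriv z t = (om t * Complex.I) * z t := by
    intro t
    have h1 : z t * (starRingEnd ℂ) (z t) = 1 := by
      rw [Complex.mul_conj, Complex.normSq_eq_norm_sq, nz]; simp
    have h2 : (starRingEnd ℂ) (z t) * deriv z t = om t * Complex.I := by
      apply Complex.ext
      · rw [horth]; simp
      · simp [om]
    rw [← h2]
    linear_combination (-(deriv z t)) * h1
  have hconst : z 1 * Complex.exp (-(θ 1 * Complex.I)) = z 0 := by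
    have hd : ∀ t, HasDerivAt (fun s => z s * Complex.exp (-(θ s * Complex.I))) 0 t := by
      intro t
      have h1 : HasDerivAt (fun s => Complex.exp (-((θ s : ℂ) * Complex.I)))
          (Complex.exp (-(θ t * Complex.I)) * (-(om t * Complex.I))) t :=
        (((dθ t).ofReal_comp.mul_const Complex.I).neg).cexp
      have h2 := (dz t).mul h1
      have e : deriv z t * Complex.exp (-(θ t * Complex.I)) +
          z t * (Complex.exp (-(θ t * Complex.I)) * (-(om t * Complex.I))) = 0 := by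
        rw [hz' t]; ring
      rw [e] at h2
      exact h2
    have := is_const_of_deriv_eq_zero (fun t => (hd t).differentiableAt) (fun t => (hd t).deriv) 1 0
    simpa [θ0] using this
  refine ⟨θ 1, ?_, fun A B hA hB hAB => ?_⟩
  · rw [← hconst, mul_assoc, ← Complex.exp_add]; simp
  let x : ℝ → ℍ[ℝ] := fun t => ex qi (θ t / 4) * y t
  let x' : ℝ → ℍ[ℝ] := fun t => ex qi (θ t / 4) * tw (y t) (z t) (deriv y t) (deriv z t)
  have ctw : Continuous fun t => tw (y t) (z t) (deriv y t) (deriv z t) :=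
    cy'.add ((com.div_const 4).smul (continuous_const.mul cy))
  have dx : ∀ t, HasDerivAt x (x' t) t := by
    intro t
    have h1 : HasDerivAt (fun s => ex qi (θ s / 4)) ((om t / 4) • (ex qi (θ t / 4) * qi)) t :=
      HasDerivAt.scomp (g₁ := ex qi) (h := fun s => θ s / 4) t (hasDerivAt_ex re_qi norm_qi _)
        ((dθ t).div_const 4)
    have h2 := h1.mul (dy t)
    have e : (om t / 4) • (ex qi (θ t / 4) * qi) * y t + ex qi (θ t / 4) * deriv y t = x' t := by
      simp only [x', tw, mul_add, mul_smul_comm, smul_mul_assoc, mul_assoc, om]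
      abel
    rw [e] at h2
    exact h2
  have cx' : Continuous x' :=
    ((contDiff_ex qi).continuous.comp (cθ.div_const 4)).mul ctw
  have nx : ∀ t, ‖x t‖ = 1 := fun t => by
    simp only [x, norm_mul, norm_ex re_qi norm_qi, ny, mul_one]
  have nx' : ∀ t, ‖x' t‖ = ‖tw (y t) (z t) (deriv y t) (deriv z t)‖ := fun t => by
    simp only [x', norm_mul, norm_ex re_qi norm_qi, one_mul]
  have h1 := arccos_le_integral x x' dx cx' nx
  have ex0 : x 0 = y 0 := by simp [x, θ0, ex_zero]
  rw [ex0] at h1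
  simp only [nx'] at h1
  have h2 : |θ 1| ≤ ∫ t in (0 : ℝ)..1, ‖deriv z t‖ := by
    refine (intervalIntegral.abs_integral_le_integral_abs zero_le_one).trans ?_
    refine intervalIntegral.integral_mono_on zero_le_one (com.abs.intervalIntegrable _ _)
      (cz'.norm.intervalIntegrable _ _) fun t _ => ?_
    refine (Complex.abs_im_le_norm _).trans (le_of_eq ?_)
    rw [norm_mul, Complex.norm_conj, nz, one_mul]
  have cs : Continuous fun t =>
      √(‖tw (y t) (z t) (deriv y t) (deriv z t)‖ ^ 2 + ‖deriv z t‖ ^ 2) :=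
    ((ctw.norm.pow 2).add (cz'.norm.pow 2)).sqrt
  rw [← ofReal_integral_eq_lintegral_ofReal cs.integrableOn_Icc
    (Filter.Eventually.of_forall fun t => Real.sqrt_nonneg _)]
  apply ENNReal.ofReal_le_ofReal
  rw [integral_Icc_eq_integral_Ioc, ← intervalIntegral.integral_of_le zero_le_one]
  calc A * Real.arccos ⟪y 0, ex qi (θ 1 / 4) * y 1⟫ + B * |θ 1|
      ≤ A * (∫ t in (0 : ℝ)..1, ‖tw (y t) (z t) (deriv y t) (deriv z t)‖) +
        B * ∫ t in (0 : ℝ)..1, ‖deriv z t‖ :=
        add_le_add (mul_le_mul_of_nonneg_left h1 hA) (mul_le_mul_of_nonneg_left h2 hB)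
    _ = ∫ t in (0 : ℝ)..1, (A * ‖tw (y t) (z t) (deriv y t) (deriv z t)‖ + B * ‖deriv z t‖) := by
        rw [intervalIntegral.integral_add ((ctw.norm.const_mul A).intervalIntegrable _ _)
          ((cz'.norm.const_mul B).intervalIntegrable _ _), intervalIntegral.integral_const_mul,
          intervalIntegral.integral_const_mul]
    _ ≤ _ := by
        refine intervalIntegral.integral_mono_on zero_le_one
          (((ctw.norm.const_mul A).add (cz'.norm.const_mul B)).intervalIntegrable _ _)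
          (cs.intervalIntegrable _ _) fun t _ => ?_
        apply Real.le_sqrt_of_sq_le
        set a := ‖tw (y t) (z t) (deriv y t) (deriv z t)‖
        set b := ‖deriv z t‖
        nlinarith [sq_nonneg (A * b - B * a), sq_nonneg a, sq_nonneg b]

theorem le_dist (p q : MM) (c : ℝ)
    (h : ∀ θ : ℝ, c2 q = c2 p * Complex.exp (θ * Complex.I) → ∃ A B : ℝ, 0 ≤ A ∧ 0 ≤ B ∧
      A ^ 2 + B ^ 2 ≤ 1 ∧ c ≤ A * Real.arccos ⟪c1 p, ex qi (θ / 4) * c1 q⟫ + B * |θ|) :
    ENNReal.ofReal c ≤ rdist II GG p q := by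
  letI := tnorm II GG
  haveI := enormSMul
  refine le_of_forall_gt_imp_ge_of_dense fun r hr => ?_
  obtain ⟨γ, h0, h1, hγ, hlen, -, -⟩ :=
    Manifold.exists_lt_locally_constant_of_riemannianEDist_lt (a := 0) (b := 1) hr zero_lt_one
  rw [length_eq hγ] at hlen
  obtain ⟨θ, e1, e2⟩ := curve_lower (c1 ∘ γ) (c2 ∘ γ)
    (contMDiff_iff_contDiff.1 (smooth_c1.comp hγ)) (contMDiff_iff_contDiff.1 (smooth_c2.comp hγ))
    (fun t => norm_c1 _) (fun t => norm_c2 _)
  simp only [Function.comp_apply, h0, h1] at e1 e2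
  obtain ⟨A, B, hA, hB, hAB, hc⟩ := h θ e1
  exact ((ENNReal.ofReal_le_ofReal hc).trans (e2 A B hA hB hAB)).trans hlen.le

theorem dist_le (p q : MM) (θ : ℝ) (h : c2 q = c2 p * Complex.exp (θ * Complex.I)) :
    rdist II GG p q ≤
      ENNReal.ofReal √(Real.arccos ⟪c1 p, ex qi (θ / 4) * c1 q⟫ ^ 2 + θ ^ 2) := by
  letI := tnorm II GG
  haveI := enormSMul
  have hp := norm_c1 p
  have hq := norm_c1 q
  set w : ℍ[ℝ] := star (c1 p) * (ex qi (θ / 4) * c1 q) with hw
  have nw : ‖w‖ = 1 := by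
    rw [hw, norm_mul, norm_mul, norm_star, hp, hq, norm_ex re_qi norm_qi]; norm_num
  have hwre : w.re = ⟪c1 p, ex qi (θ / 4) * c1 q⟫ := by
    have h1 : ex qi (θ / 4) * c1 q = c1 p * w := by
      rw [hw, ← mul_assoc, mul_star_self hp, one_mul]
    rw [h1]
    have h2 := inner_mul_left hp 1 w
    rw [mul_one] at h2
    rw [h2, inner_eq]; simp
  obtain ⟨n, n0, n1, hn⟩ := exists_polar nw
  rw [← hwre]
  set φ := Real.arccos w.re with hφ
  let y : ℝ → ℍ[ℝ] := fun t => ex qi (-(θ / 4) * t) * (c1 p * ex n (φ * t))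
  let z : ℝ → ℂ := fun t => c2 p * Complex.exp ((θ * t : ℝ) * Complex.I)
  have ny : ∀ t, ‖y t‖ = 1 := fun t => by
    simp only [y, norm_mul, norm_ex re_qi norm_qi, norm_ex n0 n1, hp, mul_one]
  have nz : ∀ t, ‖z t‖ = 1 := fun t => by
    simp only [z, norm_mul, norm_c2, Complex.norm_exp_ofReal_mul_I, mul_one]
  let γ : ℝ → MM := fun t => (⟨y t, by simp [ny]⟩, ⟨z t, by simp [nz]⟩)
  have hy : ContDiff ℝ 1 y :=
    ((contDiff_ex qi).comp (by fun_prop)).mul
      (contDiff_const.mul ((contDiff_ex n).comp (by fun_prop)))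
  have hz : ContDiff ℝ 1 z := by
    refine contDiff_const.mul (Complex.contDiff_exp.comp (ContDiff.mul ?_ contDiff_const))
    exact Complex.ofRealCLM.contDiff.comp (f := fun t : ℝ => θ * t) (by fun_prop)
  have hγ : ContMDiff 𝓘(ℝ, ℝ) II 1 γ := smooth_of hy.contMDiff hz.contMDiff
  have γ0 : γ 0 = p := MM_ext (by simp [γ, c1, y, ex_zero]) (by simp [γ, c2, z])
  have γ1 : γ 1 = q := by
    refine MM_ext ?_ ?_
    · change y 1 = c1 q
      simp only [y, mul_one]
      rw [hn, hw, ← mul_assoc (c1 p), mul_star_self hp, one_mul, ← mul_assoc,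
        ← ex_add re_qi norm_qi, neg_add_cancel, ex_zero, one_mul]
    · change z 1 = c2 q
      simp only [z, mul_one, h]
  refine (Manifold.riemannianEDist_le_pathELength hγ.contMDiffOn γ0 γ1 zero_le_one).trans ?_
  rw [length_eq hγ]
  have dz : ∀ t, deriv z t = (θ * Complex.I) * z t := by
    intro t
    have h1 : HasDerivAt (fun s : ℝ => ((θ * s : ℝ) : ℂ) * Complex.I) ((θ * 1 : ℝ) * Complex.I) t :=
      (((hasDerivAt_id t).const_mul θ).ofReal_comp).mul_const Complex.I
    have h2 := (h1.cexp).const_mul (c2 p)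
    rw [h2.deriv]
    simp only [z, mul_one]
    ring
  have dy : ∀ t, deriv y t = (-(θ / 4)) • (qi * y t) +
      φ • (ex qi (-(θ / 4) * t) * (c1 p * (ex n (φ * t) * n))) := by
    intro t
    have h1 : HasDerivAt (fun s => ex qi (-(θ / 4) * s))
        ((-(θ / 4) * 1) • (ex qi (-(θ / 4) * t) * qi)) t :=
      HasDerivAt.scomp (g₁ := ex qi) (h := fun s => -(θ / 4) * s) t (hasDerivAt_ex re_qi norm_qi _)
        ((hasDerivAt_id t).const_mul _)
    have h2 : HasDerivAt (fun s => ex n (φ * s)) ((φ * 1) • (ex n (φ * t) * n)) t :=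
      HasDerivAt.scomp (g₁ := ex n) (h := fun s => φ * s) t (hasDerivAt_ex n0 n1 _)
        ((hasDerivAt_id t).const_mul _)
    have h3 : HasDerivAt y _ t := h1.mul (h2.const_mul (c1 p))
    rw [h3.deriv]
    simp only [y, mul_one, ex_comm qi, smul_mul_assoc, mul_smul_comm, mul_assoc]
  have key : ∀ t, √(‖tw (c1 (γ t)) (c2 (γ t)) (deriv (c1 ∘ γ) t) (deriv (c2 ∘ γ) t)‖ ^ 2 +
      ‖deriv (c2 ∘ γ) t‖ ^ 2) = √(φ ^ 2 + θ ^ 2) := by
    intro t
    change √(‖tw (y t) (z t) (deriv y t) (deriv z t)‖ ^ 2 + ‖deriv z t‖ ^ 2) = _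
    have h1 : z t * (starRingEnd ℂ) (z t) = 1 := by
      rw [Complex.mul_conj, Complex.normSq_eq_norm_sq, nz]; simp
    have h2 : ((starRingEnd ℂ) (z t) * deriv z t).im = θ := by
      have : (starRingEnd ℂ) (z t) * deriv z t = θ * Complex.I := by
        rw [dz]; linear_combination (θ * Complex.I) * h1
      rw [this]; simp
    have h3 : tw (y t) (z t) (deriv y t) (deriv z t) =
        φ • (ex qi (-(θ / 4) * t) * (c1 p * (ex n (φ * t) * n))) := by
      rw [tw, h2, dy, neg_smul]; abel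
    rw [h3, dz, norm_smul, norm_mul, norm_mul, norm_mul, norm_ex re_qi norm_qi, norm_ex n0 n1, hp,
      n1, norm_mul, norm_mul, nz]
    simp
  simp only [key]
  simp

end Pool.Agent.H822Z.Hom
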