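import Pool.Agent.H822Z.Hom.Dist

/-! The group of right translations and the inhomogeneous quotient. -/

set_option autoImplicit false

namespace Pool.Agent.H822Z.Hom

open Set Quaternion Module
open scoped RealInnerProductSpace Manifold ContDiff ENNReal

/-- the cyclic group of order four generated by `j` -/
def U4 : Set ℍ[ℝ] := {1, -1, qj, -qj}

theorem qj_mul_qj : qj * qj = -1 := by ext <;> simp [qj]

theorem U4_mul {u v : ℍ[ℝ]} (hu : u ∈ U4) (hv : v ∈ U4) : u * v ∈ U4 := by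
  simp only [U4, mem_insert_iff, mem_singleton_iff] at hu hv ⊢
  rcases hu with rfl | rfl | rfl | rfl <;> rcases hv with rfl | rfl | rfl | rfl <;>
    simp [qj_mul_qj]

theorem U4_star {u : ℍ[ℝ]} (hu : u ∈ U4) : star u ∈ U4 := by
  have : star qj = -qj := by ext <;> simp [qj]
  simp only [U4, mem_insert_iff, mem_singleton_iff] at hu ⊢
  rcases hu with rfl | rfl | rfl | rfl <;> simp [this]

theorem U4_norm {u : ℍ[ℝ]} (hu : u ∈ U4) : ‖u‖ = 1 := by
  simp only [U4, mem_insert_iff, mem_singleton_iff] at hu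
  rcases hu with rfl | rfl | rfl | rfl <;> simp [norm_qj]

theorem U4_im {u : ℍ[ℝ]} (hu : u ∈ U4) : u.imI = 0 ∧ u.imK = 0 := by
  simp only [U4, mem_insert_iff, mem_singleton_iff] at hu
  rcases hu with rfl | rfl | rfl | rfl <;> simp [qj]

/-- the group of deck transformations -/
def Gam : Subgroup (Equiv.Perm MM) where
  carrier := {σ | ∃ u ∈ U4, ∀ p, c1 (σ p) = c1 p * u ∧ c2 (σ p) = c2 p}
  one_mem' := ⟨1, by simp [U4], fun p => by simp⟩
  mul_mem' := by
    rintro σ τ ⟨u, hu, h⟩ ⟨v, hv, h'⟩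
    refine ⟨v * u, U4_mul hv hu, fun p => ?_⟩
    rw [Equiv.Perm.mul_apply, (h _).1, (h _).2, (h' _).1, (h' _).2, mul_assoc]
    exact ⟨rfl, rfl⟩
  inv_mem' := by
    rintro σ ⟨u, hu, h⟩
    refine ⟨star u, U4_star hu, fun p => ?_⟩
    have h1 := h (σ⁻¹ p)
    simp only [Equiv.Perm.coe_inv, Equiv.apply_symm_apply] at h1
    simp only [Equiv.Perm.coe_inv]
    rw [h1.1, mul_assoc, mul_star_self (U4_norm hu), mul_one]
    exact ⟨rfl, h1.2.symm⟩

theorem RR_mem {u : ℍ[ℝ]} (hu : u ∈ U4) : RR u (U4_norm hu) ∈ Gam :=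
  ⟨u, hu, fun p => ⟨c1_RR _ _ p, c2_RR _ _ p⟩⟩

theorem eq_RR {σ : Equiv.Perm MM} (h : σ ∈ Gam) : ∃ (u : ℍ[ℝ]) (hu : u ∈ U4),
    σ = RR u (U4_norm hu) := by
  obtain ⟨u, hu, h⟩ := h
  refine ⟨u, hu, Equiv.ext fun p => MM_ext ?_ ?_⟩
  · rw [(h p).1, c1_RR]
  · rw [(h p).2, c2_RR]

theorem finite_Gam : Finite Gam := by
  have hf : U4.Finite := by simp [U4]
  have := hf.to_subtype
  refine Finite.of_surjective (fun u : U4 => (⟨RR u.1 (U4_norm u.2), RR_mem u.2⟩ : Gam)) ?_
  rintro ⟨σ, hσ⟩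
  obtain ⟨u, hu, rfl⟩ := eq_RR hσ
  exact ⟨⟨u, hu⟩, rfl⟩

theorem free_Gam {σ : Equiv.Perm MM} (h : σ ∈ Gam) (p : MM) (hp : σ p = p) : σ = 1 := by
  obtain ⟨u, hu, h⟩ := h
  have h1 := (h p).1
  rw [hp] at h1
  have h2 : u = 1 := by
    have := congrArg (fun t => star (c1 p) * t) h1
    simp only [← mul_assoc, star_mul_self (norm_c1 p), one_mul] at this
    exact this.symm
  refine Equiv.ext fun q => MM_ext ?_ ?_
  · rw [(h q).1, h2, mul_one]; rfl
  · rw [(h q).2]; rfl

theorem dist_RR (u : ℍ[ℝ]) (hu : ‖u‖ = 1) (p : MM) :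
    rdist II GG p (RR u hu p) = ENNReal.ofReal (Real.arccos u.re) := by
  have e : ⟪c1 p, ex qi (0 / 4) * c1 (RR u hu p)⟫ = u.re := by
    rw [zero_div, ex_zero, one_mul, c1_RR]
    have h2 := inner_mul_left (norm_c1 p) 1 u
    rw [mul_one] at h2
    rw [h2, inner_eq]; simp
  apply le_antisymm
  · have := dist_le p (RR u hu p) 0 (by simp [c2_RR])
    rw [e] at this
    simpa [Real.sqrt_sq (Real.arccos_nonneg _)] using this
  · refine le_dist _ _ _ fun θ hθ => ?_
    by_cases h0 : θ = 0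
    · subst h0
      exact ⟨1, 0, zero_le_one, le_rfl, by norm_num, by rw [e]; simp⟩
    · refine ⟨0, 1, le_rfl, zero_le_one, by norm_num, ?_⟩
      rw [c2_RR] at hθ
      have hne : c2 p ≠ 0 := by
        intro h; have := norm_c2 p; rw [h] at this; simp at this
      have h1 : Complex.exp (θ * Complex.I) = 1 := by
        have := mul_left_cancel₀ hne (hθ.symm.trans (mul_one _).symm)
        exact this
      have h2 : Real.cos θ = 1 := by
        have := congrArg Complex.re h1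
        simpa [Complex.exp_ofReal_mul_I_re] using this
      have h3 : Real.pi ≤ |θ| := by
        by_contra hlt
        push Not at hlt
        rw [abs_lt] at hlt
        have := (Real.cos_eq_one_iff_of_lt_of_lt (by linarith [Real.pi_pos])
          (by linarith [Real.pi_pos])).1 h2
        exact h0 this
      have := Real.arccos_le_pi u.re
      linarith

theorem mk_eq {x y : MM} (h : Quotient.mk (MulAction.orbitRel Gam MM) x =
    Quotient.mk (MulAction.orbitRel Gam MM) y) : ∃ u ∈ U4, c1 x = c1 y * u ∧ c2 x = c2 y := by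
  obtain ⟨⟨σ, u, hu, hσ⟩, e⟩ := MulAction.orbitRel_apply.1 (Quotient.exact h)
  refine ⟨u, hu, ?_⟩
  rw [← e]
  exact hσ y

theorem mk_RR {u : ℍ[ℝ]} (hu : u ∈ U4) (y : MM) :
    Quotient.mk (MulAction.orbitRel Gam MM) (RR u (U4_norm hu) y) =
      Quotient.mk (MulAction.orbitRel Gam MM) y :=
  Quotient.sound (MulAction.orbitRel_apply.2 ⟨⟨_, RR_mem hu⟩, rfl⟩)

/-- the largest distance -/
noncomputable def DD : ℝ := √((Real.pi / 2) ^ 2 + Real.pi ^ 2)

theorem DD_pos : 0 < DD := Real.sqrt_pos.2 (by have := Real.pi_pos; positivity)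

/-- a special unit quaternion -/
noncomputable def y0 : ℍ[ℝ] := ⟨1 / 2, -1 / 2, -1 / 2, -1 / 2⟩

theorem norm_y0 : ‖y0‖ = 1 := by rw [norm_eq_one_iff]; simp [y0]; norm_num

/-- the special point -/
noncomputable def p0 : MM := (⟨y0, by simp [norm_y0]⟩, ⟨1, by simp⟩)
/-- its farthest point -/
noncomputable def q0 : MM := (⟨y0 * qi, by simp [norm_y0, norm_qi]⟩, ⟨-1, by simp⟩)
/-- an ordinary point -/
noncomputable def p1 : MM := (⟨1, by simp⟩, ⟨1, by simp⟩)

theorem far : ENNReal.ofReal DD ≤ qdist II GG Gam (Quotient.mk _ p0) (Quotient.mk _ q0) := by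
  refine le_iInf fun x => le_iInf fun y => le_iInf fun hx => le_iInf fun hy => ?_
  obtain ⟨u, hu, x1, x2⟩ := mk_eq hx
  obtain ⟨v, hv, y1, y2⟩ := mk_eq hy
  have hD := DD_pos
  have hDD : DD ^ 2 = (Real.pi / 2) ^ 2 + Real.pi ^ 2 := Real.sq_sqrt (by positivity)
  have hpi := Real.pi_pos
  refine le_dist _ _ _ fun θ hθ => ⟨Real.pi / 2 / DD, Real.pi / DD, by positivity, by positivity,
    ?_, ?_⟩
  · rw [div_pow, div_pow _ DD, ← add_div, ← hDD, div_self (by positivity)]
  · have e : ⟪c1 x, ex qi (θ / 4) * c1 y⟫ = 0 := by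
      rw [x1, y1]
      change ⟪y0 * u, ex qi (θ / 4) * (y0 * qi * v)⟫ = 0
      obtain ⟨a1, a2⟩ := U4_im hu
      obtain ⟨b1, b2⟩ := U4_im hv
      simp [inner_eq, ex, y0, qi, a1, a2, b1, b2]
      ring
    have h2 : Real.cos θ = -1 := by
      rw [x2, y2] at hθ
      change (-1 : ℂ) = 1 * _ at hθ
      have := congrArg Complex.re hθ
      simp [Complex.exp_ofReal_mul_I_re] at this
      exact this.symm
    have h3 : Real.pi ≤ |θ| := by
      by_contra hlt
      push Not at hlt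
      have := Real.cos_lt_cos_of_nonneg_of_le_pi (abs_nonneg θ) le_rfl hlt
      rw [Real.cos_pi, Real.cos_abs] at this
      linarith
    rw [e, Real.arccos_zero]
    have : DD = Real.pi / 2 / DD * (Real.pi / 2) + Real.pi / DD * Real.pi := by
      field_simp
      nlinarith
    have h4 : Real.pi / DD * Real.pi ≤ Real.pi / DD * |θ| :=
      mul_le_mul_of_nonneg_left h3 (by positivity)
    linarith

theorem near_aux (q : MM) {u : ℍ[ℝ]} (hu : u ∈ U4) (θ : ℝ)
    (h : c2 q = Complex.exp (θ * Complex.I))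
    (hlt : Real.arccos (ex qi (θ / 4) * c1 q * u).re ^ 2 + θ ^ 2 <
      (Real.pi / 2) ^ 2 + Real.pi ^ 2) :
    qdist II GG Gam (Quotient.mk _ p1) (Quotient.mk _ q) < ENNReal.ofReal DD := by
  have h1 : qdist II GG Gam (Quotient.mk _ p1) (Quotient.mk _ q) ≤
      rdist II GG p1 (RR u (U4_norm hu) q) :=
    iInf_le_of_le p1 (iInf_le_of_le _ (iInf_le_of_le rfl (iInf_le_of_le (mk_RR hu q) le_rfl)))
  have h2 := dist_le p1 (RR u (U4_norm hu) q) θ (by
    rw [c2_RR, h]; change _ = 1 * _; rw [one_mul])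
  have e : ⟪c1 p1, ex qi (θ / 4) * c1 (RR u (U4_norm hu) q)⟫ = (ex qi (θ / 4) * c1 q * u).re := by
    rw [c1_RR, ← mul_assoc]
    change ⟪(1 : ℍ[ℝ]), _⟫ = _
    rw [inner_eq]; simp
  rw [e] at h2
  refine (h1.trans h2).trans_lt ((ENNReal.ofReal_lt_ofReal_iff DD_pos).2 ?_)
  exact Real.sqrt_lt_sqrt (by positivity) hlt

theorem near_pos (q : MM) {u : ℍ[ℝ]} (hu : u ∈ U4) (θ : ℝ) (hθ : |θ| ≤ Real.pi)
    (h : c2 q = Complex.exp (θ * Complex.I)) (hne : (ex qi (θ / 4) * c1 q * u).re ≠ 0) :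
    qdist II GG Gam (Quotient.mk _ p1) (Quotient.mk _ q) < ENNReal.ofReal DD := by
  have hsq : θ ^ 2 ≤ Real.pi ^ 2 := by
    rw [← sq_abs θ]; exact pow_le_pow_left₀ (abs_nonneg _) hθ 2
  have key : ∀ v ∈ U4, 0 < (ex qi (θ / 4) * c1 q * v).re →
      qdist II GG Gam (Quotient.mk _ p1) (Quotient.mk _ q) < ENNReal.ofReal DD := by
    intro v hv hp
    refine near_aux q hv θ h ?_
    have a1 := Real.arccos_lt_pi_div_two.2 hp
    have a2 := Real.arccos_nonneg (ex qi (θ / 4) * c1 q * v).re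
    nlinarith
  rcases lt_or_gt_of_ne hne with hn | hp
  · refine key (u * -1) (U4_mul hu (by simp [U4])) ?_
    rw [mul_neg, mul_neg, mul_one, re_neg]
    linarith
  · exact key u hu hp

theorem near (q : MM) :
    qdist II GG Gam (Quotient.mk _ p1) (Quotient.mk _ q) < ENNReal.ofReal DD := by
  have hpi := Real.pi_pos
  have h : c2 q = Complex.exp ((c2 q).arg * Complex.I) := by
    have := Complex.norm_mul_exp_arg_mul_I (c2 q)
    rw [norm_c2] at this
    simpa using this.symm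
  have habs := Complex.abs_arg_le_pi (c2 q)
  have h1U : (1 : ℍ[ℝ]) ∈ U4 := by simp [U4]
  have hjU : qj ∈ U4 := by simp [U4]
  by_cases hθ : (c2 q).arg = Real.pi
  · rw [hθ] at h
    have h' : c2 q = Complex.exp ((-Real.pi : ℝ) * Complex.I) := by
      rw [h]; push_cast
      rw [neg_mul, Complex.exp_neg, Complex.exp_pi_mul_I]; norm_num
    by_contra hcon
    have a1 : (ex qi (Real.pi / 4) * c1 q * 1).re = 0 := by
      by_contra hne
      exact hcon (near_pos q h1U _ (by rw [abs_of_pos hpi]) h hne)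
    have a2 : (ex qi (Real.pi / 4) * c1 q * qj).re = 0 := by
      by_contra hne
      exact hcon (near_pos q hjU _ (by rw [abs_of_pos hpi]) h hne)
    have a3 : (ex qi (-Real.pi / 4) * c1 q * 1).re = 0 := by
      by_contra hne
      exact hcon (near_pos q h1U _ (by rw [abs_neg, abs_of_pos hpi]) h' hne)
    have a4 : (ex qi (-Real.pi / 4) * c1 q * qj).re = 0 := by
      by_contra hne
      exact hcon (near_pos q hjU _ (by rw [abs_neg, abs_of_pos hpi]) h' hne)
    have hn := (norm_eq_one_iff _).1 (norm_c1 q)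
    have hs : (0 : ℝ) < √2 := by positivity
    simp [ex, qi, qj, neg_div] at a1 a2 a3 a4
    have b1 : (c1 q).re = 0 := by nlinarith
    have b2 : (c1 q).imI = 0 := by nlinarith
    have b3 : (c1 q).imJ = 0 := by nlinarith
    have b4 : (c1 q).imK = 0 := by nlinarith
    rw [b1, b2, b3, b4] at hn
    norm_num at hn
  · by_cases hne : (ex qi ((c2 q).arg / 4) * c1 q * 1).re = 0
    · refine near_aux q h1U _ h ?_
      rw [hne, Real.arccos_zero]
      have a1 := Complex.neg_pi_lt_arg (c2 q)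
      have a2 := lt_of_le_of_ne (Complex.arg_le_pi (c2 q)) hθ
      nlinarith
    · exact near_pos q h1U _ habs h hne

theorem not_homogeneous : ¬ QuotHomogeneous II GG Gam := by
  intro h
  obtain ⟨φ, hφ, e⟩ := h (Quotient.mk _ p0) (Quotient.mk _ p1)
  obtain ⟨q, hq⟩ := Quotient.exists_rep (φ (Quotient.mk _ q0))
  have h1 := hφ (Quotient.mk _ p0) (Quotient.mk _ q0)
  rw [e, ← hq] at h1
  have h2 := near q
  rw [h1] at h2
  exact absurd far (not_le.2 h2)

theorem connected_MM : ConnectedSpace MM := by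
  have a1 : ConnectedSpace S3 := isConnected_iff_connectedSpace.1
    (isConnected_sphere (by rw [Quaternion.rank_eq_four]; norm_num) _ zero_le_one)
  have a2 : ConnectedSpace S1 := isConnected_iff_connectedSpace.1
    (isConnected_sphere (by rw [Complex.rank_real_complex]; norm_num) _ zero_le_one)
  infer_instance

theorem main : ∃ (E H M : Type) (_ : NormedAddCommGroup E) (_ : NormedSpace ℝ E)
    (_ : TopologicalSpace H) (I : ModelWithCorners ℝ E H) (_ : TopologicalSpace M)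
    (_ : ChartedSpace H M) (_ : IsManifold I ∞ M) (g : M → E → E → ℝ)
    (Γ : Subgroup (Equiv.Perm M)),
    Module.finrank ℝ E = 4 ∧ I.Boundaryless ∧ T2Space M ∧ CompactSpace M ∧ ConnectedSpace M ∧
      IsRiemannian I g ∧ WeaklySymmetric I g ∧ (∀ γ ∈ Γ, IsIsom I g γ) ∧ Finite Γ ∧
      (∀ γ ∈ Γ, ∀ x : M, γ x = x → γ = 1) ∧
      (∀ γ ∈ Γ, ∃ c : ℝ, ∀ x : M, rdist I g x (γ x) = ENNReal.ofReal c) ∧
      ¬ QuotHomogeneous I g Γ := by
  refine ⟨EE, _, MM, inferInstance, inferInstance, inferInstance, II, inferInstance, inferInstance,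
    inferInstance, GG, Gam, by simp, inferInstance, inferInstance, inferInstance, connected_MM,
    riem_GG, weaklySymmetric, fun γ hγ => ?_, finite_Gam,
    fun γ hγ x hx => free_Gam hγ x hx, fun γ hγ => ?_, not_homogeneous⟩
  · obtain ⟨u, hu, rfl⟩ := eq_RR hγ
    exact isom_RR _ _
  · obtain ⟨u, hu, rfl⟩ := eq_RR hγ
    exact ⟨_, fun x => dist_RR _ _ x⟩

end Pool.Agent.H822Z.Hom
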