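import Pool.Agent.H822Z.Hom.Defs
import Pool.Agent.H822Z.Hom.Arc

/-! The twisted metric on the product of the three sphere and the circle. -/

set_option autoImplicit false

namespace Pool.Agent.H822Z.Hom

open Set Quaternion Module
open scoped RealInnerProductSpace Manifold ContDiff ENNReal

instance factH : Fact (finrank ℝ ℍ[ℝ] = 3 + 1) := ⟨Quaternion.finrank_eq_four⟩
instance factC : Fact (finrank ℝ ℂ = 1 + 1) := ⟨Complex.finrank_real_complex⟩

/-- the three sphere -/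
abbrev S3 := Metric.sphere (0 : ℍ[ℝ]) 1
/-- the circle -/
abbrev S1 := Metric.sphere (0 : ℂ) 1
/-- the manifold -/
abbrev MM := S3 × S1
/-- the model -/
noncomputable abbrev II := (𝓡 3).prod (𝓡 1)

/-- first coordinate -/
def c1 (p : MM) : ℍ[ℝ] := p.1
/-- second coordinate -/
def c2 (p : MM) : ℂ := p.2

theorem norm_c1 (p : MM) : ‖c1 p‖ = 1 := norm_eq_of_mem_sphere p.1
theorem norm_c2 (p : MM) : ‖c2 p‖ = 1 := norm_eq_of_mem_sphere p.2

theorem MM_ext {p q : MM} (h1 : c1 p = c1 q) (h2 : c2 p = c2 q) : p = q :=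
  Prod.ext (Subtype.ext h1) (Subtype.ext h2)

theorem smooth_c1 {m : WithTop ℕ∞} : ContMDiff II 𝓘(ℝ, ℍ[ℝ]) m c1 :=
  (contMDiff_coe_sphere (n := 3)).comp contMDiff_fst

theorem smooth_c2 {m : WithTop ℕ∞} : ContMDiff II 𝓘(ℝ, ℂ) m c2 :=
  (contMDiff_coe_sphere (n := 1)).comp contMDiff_snd

/-- differential of the first coordinate -/
noncomputable def d1 (p : MM) : TangentSpace II p →L[ℝ] ℍ[ℝ] := mfderiv II 𝓘(ℝ, ℍ[ℝ]) c1 p
/-- differential of the second coordinate -/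
noncomputable def d2 (p : MM) : TangentSpace II p →L[ℝ] ℂ := mfderiv II 𝓘(ℝ, ℂ) c2 p

/-- the twisted velocity -/
noncomputable def tw (y : ℍ[ℝ]) (z : ℂ) (a : ℍ[ℝ]) (b : ℂ) : ℍ[ℝ] :=
  a + (((starRingEnd ℂ) z * b).im / 4) • (qi * y)

theorem tw_add (y : ℍ[ℝ]) (z : ℂ) (a a' : ℍ[ℝ]) (b b' : ℂ) :
    tw y z (a + a') (b + b') = tw y z a b + tw y z a' b' := by
  simp only [tw, mul_add, Complex.add_im, add_div, add_smul]
  abel

theorem tw_smul (y : ℍ[ℝ]) (z : ℂ) (c : ℝ) (a : ℍ[ℝ]) (b : ℂ) :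
    tw y z (c • a) (c • b) = c • tw y z a b := by
  simp only [tw, smul_add, smul_smul, mul_smul_comm, Complex.smul_im, smul_eq_mul]
  congr 2
  ring

/-- the bilinear form -/
noncomputable def gg (p : MM) : TangentSpace II p →ₗ[ℝ] TangentSpace II p →ₗ[ℝ] ℝ :=
  LinearMap.mk₂ ℝ
    (fun v w => ⟪tw (c1 p) (c2 p) (d1 p v) (d2 p v), tw (c1 p) (c2 p) (d1 p w) (d2 p w)⟫ +
      ⟪d2 p v, d2 p w⟫)
    (fun v v' w => by simp only [map_add, tw_add, inner_add_left]; ring)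
    (fun c v w => by simp only [map_smul, tw_smul, real_inner_smul_left, smul_eq_mul]; ring)
    (fun v w w' => by simp only [map_add, tw_add, inner_add_right]; ring)
    (fun c v w => by simp only [map_smul, tw_smul, real_inner_smul_right, smul_eq_mul]; ring)

theorem gg_apply (p : MM) (v w : TangentSpace II p) :
    gg p v w = ⟪tw (c1 p) (c2 p) (d1 p v) (d2 p v), tw (c1 p) (c2 p) (d1 p w) (d2 p w)⟫ +
      ⟪d2 p v, d2 p w⟫ := rfl

theorem gg_self (p : MM) (v : TangentSpace II p) :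
    gg p v v = ‖tw (c1 p) (c2 p) (d1 p v) (d2 p v)‖ ^ 2 + ‖d2 p v‖ ^ 2 := by
  rw [gg_apply, real_inner_self_eq_norm_sq, real_inner_self_eq_norm_sq]

theorem d_inj (p : MM) (v : TangentSpace II p) (h1 : d1 p v = 0) (h2 : d2 p v = 0) : v = 0 := by
  have e1 : d1 p v = mfderiv (𝓡 3) 𝓘(ℝ, ℍ[ℝ]) ((↑) : S3 → ℍ[ℝ]) p.1 v.1 := by
    have := mfderiv_comp (I := II) (I' := 𝓡 3) (I'' := 𝓘(ℝ, ℍ[ℝ])) (f := Prod.fst)
      (g := ((↑) : S3 → ℍ[ℝ])) p
      (((contMDiff_coe_sphere (n := 3) (m := 1)) p.1).mdifferentiableAt one_ne_zero)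
      mdifferentiableAt_fst
    rw [mfderiv_fst] at this
    exact congrArg (fun L => L v) this
  have e2 : d2 p v = mfderiv (𝓡 1) 𝓘(ℝ, ℂ) ((↑) : S1 → ℂ) p.2 v.2 := by
    have := mfderiv_comp (I := II) (I' := 𝓡 1) (I'' := 𝓘(ℝ, ℂ)) (f := Prod.snd)
      (g := ((↑) : S1 → ℂ)) p
      (((contMDiff_coe_sphere (n := 1) (m := 1)) p.2).mdifferentiableAt one_ne_zero)
      mdifferentiableAt_snd
    rw [mfderiv_snd] at this
    exact congrArg (fun L => L v) this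
  have i1 : Function.Injective (mfderiv (𝓡 3) 𝓘(ℝ, ℍ[ℝ]) ((↑) : S3 → ℍ[ℝ]) p.1) := by
    convert! injective_mvfderiv_subtypeVal_sphere (n := 3) p.1
  have i2 : Function.Injective (mfderiv (𝓡 1) 𝓘(ℝ, ℂ) ((↑) : S1 → ℂ) p.2) := by
    convert! injective_mvfderiv_subtypeVal_sphere (n := 1) p.2
  have z1 : v.1 = 0 := i1 (by rw [← e1, h1]; exact (map_zero _).symm)
  have z2 : v.2 = 0 := i2 (by rw [← e2, h2]; exact (map_zero _).symm)
  exact Prod.ext z1 z2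

theorem smooth_d1 : ContMDiff II.tangent 𝓘(ℝ, ℍ[ℝ]) ∞
    fun v : TangentBundle II MM => d1 v.proj v.snd :=
  (contMDiff_snd_tangentBundle_modelSpace ℍ[ℝ] 𝓘(ℝ, ℍ[ℝ])).comp
    ((smooth_c1 (m := ∞)).contMDiff_tangentMap le_rfl)

theorem smooth_d2 : ContMDiff II.tangent 𝓘(ℝ, ℂ) ∞
    fun v : TangentBundle II MM => d2 v.proj v.snd :=
  (contMDiff_snd_tangentBundle_modelSpace ℂ 𝓘(ℝ, ℂ)).comp
    ((smooth_c2 (m := ∞)).contMDiff_tangentMap le_rfl)

theorem contDiff_Q : ContDiff ℝ ∞ fun w : (ℍ[ℝ] × ℂ) × (ℍ[ℝ] × ℂ) =>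
    ‖tw w.1.1 w.1.2 w.2.1 w.2.2‖ ^ 2 + ‖w.2.2‖ ^ 2 := by
  have h1 : ContDiff ℝ ∞ fun w : (ℍ[ℝ] × ℂ) × (ℍ[ℝ] × ℂ) => tw w.1.1 w.1.2 w.2.1 w.2.2 := by
    unfold tw
    have a1 : ContDiff ℝ ∞ fun w : (ℍ[ℝ] × ℂ) × (ℍ[ℝ] × ℂ) =>
        ((starRingEnd ℂ) w.1.2 * w.2.2).im :=
      Complex.imCLM.contDiff.comp
        ((Complex.conjCLE.contDiff.comp (by fun_prop)).mul (by fun_prop))
    have a2 : ContDiff ℝ ∞ fun w : (ℍ[ℝ] × ℂ) × (ℍ[ℝ] × ℂ) => qi * w.1.1 :=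
      contDiff_const.mul (by fun_prop)
    exact ContDiff.add (by fun_prop) ((a1.div_const (4 : ℝ)).smul a2)
  exact (h1.norm_sq ℝ).add ((show ContDiff ℝ ∞ fun w : (ℍ[ℝ] × ℂ) × (ℍ[ℝ] × ℂ) => w.2.2 by
    fun_prop).norm_sq ℝ)

/-- the model vector space -/
abbrev EE := EuclideanSpace ℝ (Fin 3) × EuclideanSpace ℝ (Fin 1)

/-- the Riemannian metric -/
noncomputable def GG (p : MM) (v w : EE) : ℝ := gg p v w

theorem gg_pos (p : MM) (v : TangentSpace II p) (hv : v ≠ 0) : 0 < gg p v v := by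
  rw [gg_self]
  by_contra h
  push Not at h
  have h2 : d2 p v = 0 := by
    have : ‖d2 p v‖ ^ 2 = 0 := le_antisymm
      (by nlinarith [sq_nonneg ‖tw (c1 p) (c2 p) (d1 p v) (d2 p v)‖]) (sq_nonneg _)
    simpa using this
  have h1 : tw (c1 p) (c2 p) (d1 p v) (d2 p v) = 0 := by
    have : ‖tw (c1 p) (c2 p) (d1 p v) (d2 p v)‖ ^ 2 = 0 :=
      le_antisymm (by nlinarith [sq_nonneg ‖d2 p v‖]) (sq_nonneg _)
    simpa using this
  rw [h2] at h1
  simp only [tw, mul_zero, Complex.zero_im, zero_div, zero_smul, add_zero] at h1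
  exact hv (d_inj p v h1 h2)

theorem gg_lin (p : MM) (a : ℝ) (u v w : TangentSpace II p) :
    gg p (a • u + v) w = a * gg p u w + gg p v w := by
  rw [map_add, map_smul, LinearMap.add_apply, LinearMap.smul_apply, smul_eq_mul]

theorem gg_symm (p : MM) (v w : TangentSpace II p) : gg p v w = gg p w v := by
  rw [gg_apply, gg_apply, real_inner_comm, real_inner_comm (d2 p v)]

theorem riem_GG : IsRiemannian II GG := by
  refine ⟨fun p => ⟨gg_lin p, gg_symm p, gg_pos p⟩, ?_⟩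
  have hp : ContMDiff II.tangent II ∞ fun v : TangentBundle II MM => v.proj :=
    Bundle.contMDiff_proj (TangentSpace II)
  have h := contDiff_Q.comp_contMDiff
    (((smooth_c1.comp hp).prodMk_space (smooth_c2.comp hp)).prodMk_space
      (smooth_d1.prodMk_space smooth_d2))
  refine h.congr fun v => ?_
  exact gg_self _ _

theorem d1_comp {E' H' N : Type} [NormedAddCommGroup E'] [NormedSpace ℝ E'] [TopologicalSpace H']
    {J : ModelWithCorners ℝ E' H'} [TopologicalSpace N] [ChartedSpace H' N] {φ : N → MM} {x : N}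
    (hφ : MDifferentiableAt J II φ x) (v : TangentSpace J x) :
    d1 (φ x) (mfderiv J II φ x v) = mfderiv J 𝓘(ℝ, ℍ[ℝ]) (c1 ∘ φ) x v := by
  have := mfderiv_comp (I := J) (I' := II) (I'' := 𝓘(ℝ, ℍ[ℝ])) (f := φ) (g := c1) x
    ((smooth_c1 (m := 1) _).mdifferentiableAt one_ne_zero) hφ
  exact (congrArg (fun L => L v) this).symm

theorem d2_comp {E' H' N : Type} [NormedAddCommGroup E'] [NormedSpace ℝ E'] [TopologicalSpace H']
    {J : ModelWithCorners ℝ E' H'} [TopologicalSpace N] [ChartedSpace H' N] {φ : N → MM} {x : N}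
    (hφ : MDifferentiableAt J II φ x) (v : TangentSpace J x) :
    d2 (φ x) (mfderiv J II φ x v) = mfderiv J 𝓘(ℝ, ℂ) (c2 ∘ φ) x v := by
  have := mfderiv_comp (I := J) (I' := II) (I'' := 𝓘(ℝ, ℂ)) (f := φ) (g := c2) x
    ((smooth_c2 (m := 1) _).mdifferentiableAt one_ne_zero) hφ
  exact (congrArg (fun L => L v) this).symm

theorem mfderiv_clm_c1 (L : ℍ[ℝ] →L[ℝ] ℍ[ℝ]) (p : MM) (v : TangentSpace II p) :
    mfderiv II 𝓘(ℝ, ℍ[ℝ]) (L ∘ c1) p v = L (d1 p v) := by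
  have := mfderiv_comp (I := II) (I' := 𝓘(ℝ, ℍ[ℝ])) (I'' := 𝓘(ℝ, ℍ[ℝ])) (f := c1) (g := L) p
    L.mdifferentiableAt ((smooth_c1 (m := 1) _).mdifferentiableAt one_ne_zero)
  rw [L.mfderiv_eq] at this
  exact congrArg (fun L => L v) this

theorem mfderiv_clm_c2 (L : ℂ →L[ℝ] ℂ) (p : MM) (v : TangentSpace II p) :
    mfderiv II 𝓘(ℝ, ℂ) (L ∘ c2) p v = L (d2 p v) := by
  have := mfderiv_comp (I := II) (I' := 𝓘(ℝ, ℂ)) (I'' := 𝓘(ℝ, ℂ)) (f := c2) (g := L) p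
    L.mdifferentiableAt ((smooth_c2 (m := 1) _).mdifferentiableAt one_ne_zero)
  rw [L.mfderiv_eq] at this
  exact congrArg (fun L => L v) this

theorem smooth_of {E' H' N : Type} [NormedAddCommGroup E'] [NormedSpace ℝ E'] [TopologicalSpace H']
    {J : ModelWithCorners ℝ E' H'} [TopologicalSpace N] [ChartedSpace H' N] {m : WithTop ℕ∞}
    [IsManifold J m N] {φ : N → MM} (h1 : ContMDiff J 𝓘(ℝ, ℍ[ℝ]) m (c1 ∘ φ))
    (h2 : ContMDiff J 𝓘(ℝ, ℂ) m (c2 ∘ φ)) : ContMDiff J II m φ :=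
  (h1.codRestrict_sphere (n := 3) fun x => (φ x).1.2).prodMk
    (h2.codRestrict_sphere (n := 1) fun x => (φ x).2.2)

/-- a permutation induced by a pair of linear isometries -/
noncomputable def lin (L : ℍ[ℝ] ≃ₗᵢ[ℝ] ℍ[ℝ]) (K : ℂ ≃ₗᵢ[ℝ] ℂ) : Equiv.Perm MM where
  toFun p := (⟨L (c1 p), by simp [norm_c1]⟩, ⟨K (c2 p), by simp [norm_c2]⟩)
  invFun p := (⟨L.symm (c1 p), by simp [norm_c1]⟩, ⟨K.symm (c2 p), by simp [norm_c2]⟩)
  left_inv p := MM_ext (by simp [c1]) (by simp [c2])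
  right_inv p := MM_ext (by simp [c1]) (by simp [c2])

theorem c1_lin (L : ℍ[ℝ] ≃ₗᵢ[ℝ] ℍ[ℝ]) (K : ℂ ≃ₗᵢ[ℝ] ℂ) (p : MM) : c1 (lin L K p) = L (c1 p) := rfl
theorem c2_lin (L : ℍ[ℝ] ≃ₗᵢ[ℝ] ℍ[ℝ]) (K : ℂ ≃ₗᵢ[ℝ] ℂ) (p : MM) : c2 (lin L K p) = K (c2 p) := rfl

theorem smooth_lin (L : ℍ[ℝ] ≃ₗᵢ[ℝ] ℍ[ℝ]) (K : ℂ ≃ₗᵢ[ℝ] ℂ) : ContMDiff II II ∞ (lin L K) :=
  smooth_of (L.contDiff.comp_contMDiff smooth_c1) (K.contDiff.comp_contMDiff smooth_c2)

theorem isom_lin (L : ℍ[ℝ] ≃ₗᵢ[ℝ] ℍ[ℝ]) (K : ℂ ≃ₗᵢ[ℝ] ℂ)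
    (h : ∀ y z a b, ‖z‖ = 1 → tw (L y) (K z) (L a) (K b) = L (tw y z a b)) :
    IsIsom II GG (lin L K) := by
  refine ⟨smooth_lin L K, smooth_lin L.symm K.symm, fun p v w => ?_⟩
  have hd : MDifferentiableAt II II (lin L K) p :=
    (smooth_lin L K p).mdifferentiableAt (by simp)
  have e1 : ∀ v, d1 (lin L K p) (mfderiv II II (lin L K) p v) = L (d1 p v) := fun v => by
    rw [d1_comp hd]
    exact mfderiv_clm_c1 (L.toContinuousLinearEquiv : ℍ[ℝ] →L[ℝ] ℍ[ℝ]) p v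
  have e2 : ∀ v, d2 (lin L K p) (mfderiv II II (lin L K) p v) = K (d2 p v) := fun v => by
    rw [d2_comp hd]
    exact mfderiv_clm_c2 (K.toContinuousLinearEquiv : ℂ →L[ℝ] ℂ) p v
  change gg _ (mfderiv II II (lin L K) p v) (mfderiv II II (lin L K) p w) = gg p v w
  rw [gg_apply, gg_apply, e1, e1, e2, e2, c1_lin, c2_lin, h _ _ _ _ (norm_c2 p),
    h _ _ _ _ (norm_c2 p), L.inner_map_map, K.inner_map_map]

/-- two sided multiplication by unit quaternions -/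
noncomputable def mulLR (a b : ℍ[ℝ]) (ha : ‖a‖ = 1) (hb : ‖b‖ = 1) : ℍ[ℝ] ≃ₗᵢ[ℝ] ℍ[ℝ] where
  toFun y := a * y * b
  invFun y := star a * y * star b
  map_add' y y' := by rw [mul_add, add_mul]
  map_smul' c y := by simp
  left_inv y := by
    change star a * (a * y * b) * star b = y
    rw [← mul_assoc, ← mul_assoc, star_mul_self ha, one_mul, mul_assoc, mul_star_self hb, mul_one]
  right_inv y := by
    change a * (star a * y * star b) * b = y
    rw [← mul_assoc, ← mul_assoc, mul_star_self ha, one_mul, mul_assoc, star_mul_self hb, mul_one]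
  norm_map' y := by
    change ‖a * y * b‖ = ‖y‖
    rw [norm_mul, norm_mul, ha, hb, one_mul, mul_one]

theorem mulLR_apply (a b : ℍ[ℝ]) (ha : ‖a‖ = 1) (hb : ‖b‖ = 1) (y : ℍ[ℝ]) :
    mulLR a b ha hb y = a * y * b := rfl

/-- right translations -/
noncomputable def RR (u : ℍ[ℝ]) (hu : ‖u‖ = 1) : Equiv.Perm MM :=
  lin (mulLR 1 u norm_one hu) (LinearIsometryEquiv.refl ℝ ℂ)

theorem c1_RR (u : ℍ[ℝ]) (hu : ‖u‖ = 1) (p : MM) : c1 (RR u hu p) = c1 p * u := by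
  rw [RR, c1_lin, mulLR_apply, one_mul]

theorem c2_RR (u : ℍ[ℝ]) (hu : ‖u‖ = 1) (p : MM) : c2 (RR u hu p) = c2 p := rfl

theorem isom_RR (u : ℍ[ℝ]) (hu : ‖u‖ = 1) : IsIsom II GG (RR u hu) := by
  refine isom_lin _ _ fun y z a b _ => ?_
  simp only [mulLR_apply, tw, one_mul, LinearIsometryEquiv.coe_refl, id, add_mul, smul_mul_assoc,
    mul_assoc]

/-- a reflection of the complex plane -/
noncomputable def refl (c : ℂ) (hc : ‖c‖ = 1) : ℂ ≃ₗᵢ[ℝ] ℂ :=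
  Complex.conjLIE.trans (rotation ⟨c, by simpa [Submonoid.unitSphere] using hc⟩)

theorem refl_apply (c : ℂ) (hc : ‖c‖ = 1) (z : ℂ) : refl c hc z = c * (starRingEnd ℂ) z := rfl

theorem im_refl (c : ℂ) (hc : ‖c‖ = 1) (z w : ℂ) :
    ((starRingEnd ℂ) (refl c hc z) * refl c hc w).im = -((starRingEnd ℂ) z * w).im := by
  have hcc : (starRingEnd ℂ) c * c = 1 := by
    rw [mul_comm, Complex.mul_conj, Complex.normSq_eq_norm_sq, hc]; simp
  rw [refl_apply, refl_apply, map_mul, Complex.conj_conj]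
  have : (starRingEnd ℂ) c * z * (c * (starRingEnd ℂ) w) =
      (starRingEnd ℂ) ((starRingEnd ℂ) z * w) := by
    rw [map_mul, Complex.conj_conj]
    linear_combination (z * (starRingEnd ℂ) w) * hcc
  rw [this, Complex.conj_im]

theorem weaklySymmetric : WeaklySymmetric II GG := by
  intro p q
  obtain ⟨a, ha, hia, hau⟩ := exists_flip (c1 q * star (c1 p))
  have hp := norm_c1 p
  have hq := norm_c1 q
  have hb : ‖star (c1 p) * star a * c1 q‖ = 1 := by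
    rw [norm_mul, norm_mul, norm_star, norm_star, hp, ha, hq]; norm_num
  have hc : ‖c2 p * c2 q‖ = 1 := by rw [norm_mul, norm_c2, norm_c2, mul_one]
  have hz : ∀ r : MM, c2 r * (starRingEnd ℂ) (c2 r) = 1 := fun r => by
    rw [Complex.mul_conj, Complex.normSq_eq_norm_sq, norm_c2]; simp
  refine ⟨lin (mulLR a _ ha hb) (refl _ hc), isom_lin _ _ fun y z v w _ => ?_, ?_, ?_⟩
  · simp only [tw, im_refl, mulLR_apply, mul_add, add_mul, mul_smul_comm, smul_mul_assoc]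
    congr 1
    rw [← mul_assoc qi, ← mul_assoc qi, hia, neg_div, neg_smul, neg_mul, neg_mul, smul_neg, neg_neg,
      ← mul_assoc a]
  · apply MM_ext
    · rw [c1_lin, mulLR_apply]
      calc a * c1 p * (star (c1 p) * star a * c1 q)
          = a * (c1 p * star (c1 p)) * star a * c1 q := by simp only [mul_assoc]
        _ = c1 q := by rw [mul_star_self hp, mul_one, mul_star_self ha, one_mul]
    · rw [c2_lin, refl_apply]
      linear_combination (c2 q) * hz p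
  · apply MM_ext
    · rw [c1_lin, mulLR_apply]
      calc a * c1 q * (star (c1 p) * star a * c1 q)
          = a * (c1 q * star (c1 p)) * star a * c1 q := by simp only [mul_assoc]
        _ = c1 p * star (c1 q) * (a * star a) * c1 q := by
          rw [hau, star_mul, star_star]; simp only [mul_assoc]
        _ = c1 p := by rw [mul_star_self ha, mul_one, mul_assoc, star_mul_self hq, mul_one]
    · rw [c2_lin, refl_apply]
      linear_combination (c2 p) * hz q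

end Pool.Agent.H822Z.Hom
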